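import Pool.Agent.N641.VB.Stm2

set_option autoImplicit false

/-!
# Project VB (leaf NAT, helper745 for helper641): countable infinite Boolean algebras live on `ℕ`
-/

namespace Pool.Agent.N745.VB

open Pool.Agent.N641.VB

/-- transport of a Boolean algebra structure along an equivalence -/
noncomputable def tr {B C : Type} [i : BooleanAlgebra B] (e : B ≃ C) : BooleanAlgebra C :=
  letI : Max C := ⟨fun x y => e (e.symm x ⊔ e.symm y)⟩
  letI : Min C := ⟨fun x y => e (e.symm x ⊓ e.symm y)⟩
  letI : LE C := ⟨fun x y => e.symm x ≤ e.symm y⟩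
  letI : LT C := ⟨fun x y => e.symm x < e.symm y⟩
  letI : Top C := ⟨e ⊤⟩
  letI : Bot C := ⟨e ⊥⟩
  letI : Compl C := ⟨fun x => e (e.symm x)ᶜ⟩
  letI : SDiff C := ⟨fun x y => e (e.symm x \ e.symm y)⟩
  letI : HImp C := ⟨fun x y => e (e.symm x ⇨ e.symm y)⟩
  Function.Injective.booleanAlgebra e.symm e.symm.injective Iff.rfl Iff.rfl
    (fun x y => e.symm_apply_apply _) (fun x y => e.symm_apply_apply _)
    (e.symm_apply_apply _) (e.symm_apply_apply _) (fun x => e.symm_apply_apply _)
    (fun x y => e.symm_apply_apply _) (fun x y => e.symm_apply_apply _)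

theorem core {M : Type} [AddCommMonoid M] {B C : Type} [BooleanAlgebra B] (nu : B → M)
    (h : AM nu) (e : B ≃ C) : ∃ (bo : BooleanAlgebra C) (mu : C → M),
      @AM M _ C bo mu ∧ (∀ a b, a ≤ b ↔ bo.le (e a) (e b)) ∧ (∀ a, mu (e a) = nu a) ∧
      ∀ (n : ℕ) (p : Fin n → B) (ε : Fin n → Bool),
        e (cell p ε) = @cell C bo n (fun j => e (p j)) ε := by
  letI bo : BooleanAlgebra C := tr e
  have hle : ∀ a b : B, a ≤ b ↔ e a ≤ e b := by
    intro a b
    change a ≤ b ↔ e.symm (e a) ≤ e.symm (e b)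
    rw [e.symm_apply_apply, e.symm_apply_apply]
  let o : B ≃o C := { e with map_rel_iff' := fun {a b} => (hle a b).symm }
  have ho : ∀ a, o a = e a := fun a => rfl
  refine ⟨bo, fun c => nu (e.symm c), ⟨?_, ?_⟩, hle, ?_, ?_⟩
  · have h1 : (⊥ : C) = o ⊥ := o.map_bot.symm
    rw [h1, ho]
    simp only [e.symm_apply_apply]
    exact h.bot
  · intro a b hab
    obtain ⟨a, rfl⟩ := o.surjective a
    obtain ⟨b, rfl⟩ := o.surjective b
    have h1 : o a ⊔ o b = o (a ⊔ b) := (o.map_sup a b).symm
    have h2 : Disjoint a b := (disjoint_map_orderIso_iff o).1 hab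
    simp only [h1]
    simp only [ho, e.symm_apply_apply]
    exact h.sup a b h2
  · intro a
    simp only [e.symm_apply_apply]
  · intro n p ε
    change o _ = _
    unfold cell
    rw [map_finset_inf o]
    refine Finset.inf_congr rfl ?_
    intro i _
    simp only [Function.comp]
    split_ifs
    · rfl
    · exact map_compl o (p i)

theorem NAT : Pool.Agent.N641.VB.S_NAT := by
  intro M _ B _ _ _ nu h
  obtain ⟨e⟩ := nonempty_equiv_of_countable (α := B) (β := ℕ)
  obtain ⟨bo, mu, h1, h2, h3, h4⟩ := core nu h e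
  exact ⟨bo, mu, e, h1, h2, h3, h4⟩

end Pool.Agent.N745.VB
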